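import Pool.Agent.Run7.h659.TT4

/-!
# Periods of all tuples of fibres of families of cyclic covers `y ^ N = ∏ (x - a_i) (x - z)` in short windows

For nonzero real algebraic numbers `a_0 < … < a_(n+1)` let `C_z` be the curve `y ^ N = ∏ (x - a_i) (x - z)`, a family over
the `z`-line, and let `e_0 < … < e_(n+2)` be the real numbers `a_i` and `z`, in increasing order. For `ρ = k / N` the
integrals of `x ^ j dx / |y| ^ k = x ^ j ∏ |x - e_i| ^ (- ρ) dx`, `0 ≤ j < n + 2`, from `e_l` to `e_(l+1)`,
`0 ≤ l < n + 2`, form a matrix `P_ρ(z)`. If `(n + 3) ρ` is not an integer they are, up to factors (roots of unity minus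
one), the periods of the part of `H¹(C_z)` with the corresponding character, and the parts for `1 - ρ` are dual to the
parts for `ρ`. We take `ρ < 1 / 2`, and denominators different from `4`, `6` and `10`.

Let finitely many such families (with arbitrary numbers of branch points) be given, each with a finite set of characters.
There is `G` such that for all `k`, `δ`, `D` there are `c > 0` and `M` such that the following holds for every `ℚ`-space
`V ⊂ ℂ` of dimension at most `D` (for instance a number field, or the space spanned by the monomials of bounded degree in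
given numbers over a number field) and every window `[N, N + N ^ c]`. There is a set `S` of at most `M` integers such that
for **every** `k`-tuple of integers `t_j` of the window outside `S` with distances at least `G`, and any choice of one of
the families for every `j`, the period conjecture is true up to determinants in degree `δ` over `V` for the product of the
fibres over the points `1 / t_j`: a polynomial of degree at most `δ` with coefficients in `V` which vanishes at all the
matrices `P_(j,ρ)(1 / t_j)` vanishes at all matrices `X_(j,ρ)` with `det X_(j,ρ) = det P_(j,ρ)(1 / t_j)`. There is no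
condition on the size of the coefficients. For `k = 1` only single fibres are excluded; here no tuples have to be excluded
besides those with a member in `S`.
-/

set_option autoImplicit false

open Pool.Agent.Run7.h659

namespace Pool.Agent.Results.MP_5591bc_ag.AllTuplesOfCyclicCovers

/-- the branch points: the numbers `a i` and, at the place `m`, the number `z` -/
noncomputable def branch {n : ℕ} (a : Fin n → ℝ) (m : Fin (n + 1)) (z : ℝ) : Fin (n + 1) → ℝ :=
  Fin.insertNth (α := fun _ => ℝ) m z a

/-- the matrix `P_ρ` of the integrals of `x ^ j dx / ∏ |x - e_i| ^ ρ` from `e_l` to `e_(l+1)`, `0 ≤ l, j < n` -/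
noncomputable def periods {n : ℕ} (ρ : ℚ) (e : Fin (n + 1) → ℝ) : Matrix (Fin n) (Fin n) ℝ :=
  Matrix.of fun l j => ∫ x in (e l.castSucc)..(e l.succ), x ^ (j : ℕ) / ∏ i, |x - e i| ^ (ρ : ℝ)

/-- the characters: rational numbers `ρ` in `(0, 1 / 2)` with denominator different from `4`, `6`, `10`, such that
`(n + 1) ρ` is not an integer -/
def Admissible (n : ℕ) (ρ : ℚ) : Prop :=
  0 < ρ ∧ ρ < 1 / 2 ∧ ρ.den ≠ 4 ∧ ρ.den ≠ 6 ∧ ρ.den ≠ 10 ∧ ∀ b : ℤ, ((n : ℚ) + 1) * ρ ≠ b

/-- a family of cyclic covers with the fixed branch points `a_0 < … < a_(n+1)` (nonzero real algebraic numbers, `m` the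
place of `0` between them) and one moving branch point, and a finite set `E` of characters -/
structure Family where
  n : ℕ
  a : Fin (n + 2) → ℝ
  mono : StrictMono a
  alg : ∀ i, IsAlgebraic ℚ (a i)
  m : Fin (n + 3)
  zero : StrictMono (branch a m 0)
  E : Finset ℚ
  adm : ∀ ρ ∈ E, Admissible (n + 2) ρ

/-- the names of the periods of the fibres of the families `F j`, `j = 1, …, k` -/
abbrev Ind {k : ℕ} (F : Fin k → Family) : Type := Σ j, (F j).E × Fin ((F j).n + 2) × Fin ((F j).n + 2)

/-- a matrix for every `j = 1, …, k` and every character -/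
abbrev Mat {k : ℕ} (F : Fin k → Family) : Type :=
  ∀ j, (F j).E → Matrix (Fin ((F j).n + 2)) (Fin ((F j).n + 2)) ℂ

/-- the value of the polynomial `P` at the entries of the matrices `X j ρ` -/
noncomputable def value {k : ℕ} (F : Fin k → Family) (P : MvPolynomial (Ind F) ℂ) (X : Mat F) : ℂ :=
  MvPolynomial.aeval (fun v => X v.1 v.2.1 v.2.2.1 v.2.2.2) P

/-- the matrices of periods of the fibres over `1 / t_j` -/
noncomputable def matrices {k : ℕ} (F : Fin k → Family) (t : Fin k → ℕ) : Mat F := fun j ρ =>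
  (periods ρ (branch (F j).a (F j).m (1 / (t j : ℝ)))).map Complex.ofRealHom

/-- the period conjecture in degree `δ` over `V` up to determinants for the product of the fibres over
`1 / t_1, …, 1 / t_k`: the numbers `1 / t_j` are at the place `m` between the `a_i`, the matrices of periods are
invertible, and every polynomial of total degree at most `δ` with coefficients in `V` which vanishes at these matrices
vanishes for all matrices `X j ρ` with the same determinants -/
def Good {k : ℕ} (F : Fin k → Family) (V : Submodule ℚ ℂ) (δ : ℕ) (t : Fin k → ℕ) : Prop :=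
  (∀ j, StrictMono (branch (F j).a (F j).m (1 / (t j : ℝ)))) ∧ (∀ j ρ, (matrices F t j ρ).det ≠ 0) ∧
    ∀ P : MvPolynomial (Ind F) ℂ, P.totalDegree ≤ δ → (∀ s, P.coeff s ∈ V) → value F P (matrices F t) = 0 →
      ∀ X : Mat F, (∀ j ρ, (X j ρ).det = (matrices F t j ρ).det) → value F P X = 0

theorem inGap_of {n : ℕ} {a : Fin n → ℝ} {m : Fin (n + 1)} {z : ℝ} (h : StrictMono (branch a m z)) :
    Pool.Agent.Y118.HP.InGap a m z := by
  have hm : branch a m z m = z := Fin.insertNth_apply_same (α := fun _ => ℝ) m z a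
  have hi : ∀ i, branch a m z (m.succAbove i) = a i := fun i =>
    Fin.insertNth_apply_succAbove (α := fun _ => ℝ) m z a i
  intro i
  constructor
  · intro h1
    have h2 := h ((Fin.succAbove_lt_iff_castSucc_lt m i).2 h1)
    rwa [hm, hi] at h2
  · intro h1
    have h2 := h ((Fin.lt_succAbove_iff_le_castSucc m i).2 h1)
    rwa [hm, hi] at h2

/-- the family in the form of the library -/
noncomputable def conv (A : Family) : VA.Cfam where
  n := A.n
  a := A.a
  k := A.E.card
  ρ := fun i => ((A.E.equivFin.symm i : A.E) : ℚ)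
  m := A.m
  ha := A.mono
  alg := A.alg
  gap := inGap_of A.zero
  adm := by
    refine ⟨fun i j hij => A.E.equivFin.symm.injective (Subtype.ext hij), fun i => ?_, fun i => ?_, fun i => ?_,
      fun i b => ?_⟩
    · exact (A.adm _ (A.E.equivFin.symm i).2).1
    · exact (A.adm _ (A.E.equivFin.symm i).2).2.1
    · exact ⟨(A.adm _ (A.E.equivFin.symm i).2).2.2.1, (A.adm _ (A.E.equivFin.symm i).2).2.2.2.1,
        (A.adm _ (A.E.equivFin.symm i).2).2.2.2.2.1⟩
    · exact (A.adm _ (A.E.equivFin.symm i).2).2.2.2.2.2 b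

theorem good_of {k : ℕ} (F : Fin k → Family) (V : Submodule ℚ ℂ) (δ : ℕ) {r : ℝ}
    (hball : ∀ l, Metric.ball (0 : ℂ) r ⊆ Pool.Agent.Y118.HP.Dm (F l).a (F l).m) {t : Fin k → ℕ}
    (ht : ∀ l, 1 / (t l : ℝ) < r) (h : TT.InvV (fun l => conv (F l)) V δ fun l => 1 / (t l : ℂ)) :
    Good F V δ t := by
  have hgap : ∀ l, Pool.Agent.Y118.HP.InGap (F l).a (F l).m (1 / (t l : ℝ)) := fun l =>
    VA.gap_of_ball (hball l) (ht l)
  have hmono : ∀ l, StrictMono (branch (F l).a (F l).m (1 / (t l : ℝ))) := fun l =>
    SE.strictMono_ins (F l).mono (hgap l)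
  have hdet : ∀ l ρ, (matrices F t l ρ).det ≠ 0 := by
    intro l ρ
    have h6 : (ρ : ℚ) < 1 := by
      have := ((F l).adm ρ ρ.2).2.1
      linarith
    have h7 : (matrices F t l ρ).det = Complex.ofRealHom
        (periods ρ (branch (F l).a (F l).m (1 / (t l : ℝ)))).det := (RingHom.map_det Complex.ofRealHom _).symm
    rw [h7]
    exact (map_ne_zero _).2 (VA.det_Rp (hmono l) h6)
  refine ⟨hmono, hdet, ?_⟩
  intro P hP hPV hP0 X hX
  have hPF : ∀ l (ρ : (F l).E), VA.QQ (fun l => conv (F l)) (fun l => 1 / (t l : ℂ)) l ((F l).E.equivFin ρ) =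
      matrices F t l ρ := by
    intro l ρ
    have h6 := VA.PF_real (conv (F l)).ρ (F l).mono (hgap l) ((F l).E.equivFin ρ)
    have h7 : ((1 / (t l : ℝ) : ℝ) : ℂ) = 1 / (t l : ℂ) := by push_cast; rfl
    rw [h7] at h6
    refine h6.trans ?_
    have h8 : (conv (F l)).ρ ((F l).E.equivFin ρ) = (ρ : ℚ) := by
      show (((F l).E.equivFin.symm ((F l).E.equivFin ρ) : (F l).E) : ℚ) = ρ
      rw [Equiv.symm_apply_apply]
    rw [h8]
    rfl
  set f : Ind F → TT.Nm (fun l => conv (F l)) := fun v => ⟨v.1, (F v.1).E.equivFin v.2.1, v.2.2⟩ with hf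
  have hfi : Function.Injective f := by
    rintro ⟨j, ρ, x⟩ ⟨j', ρ', x'⟩ h
    simp only [hf, Sigma.mk.injEq] at h
    obtain ⟨rfl, h2⟩ := h
    have h3 := eq_of_heq h2
    rw [Prod.mk.injEq] at h3
    rw [(F j).E.equivFin.injective h3.1, h3.2]
  have hval : ∀ Y : VA.MM (fun l => conv (F l)) ℂ, MvPolynomial.aeval (TT.nv (fun l => conv (F l)) Y)
      (MvPolynomial.rename f P) = value F P (fun l ρ => Y l ((F l).E.equivFin ρ)) := by
    intro Y
    rw [MvPolynomial.aeval_rename]
    rfl
  have hv0 : MvPolynomial.aeval (TT.nv (fun l => conv (F l)) (VA.QQ (fun l => conv (F l)) fun l => 1 / (t l : ℂ)))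
      (MvPolynomial.rename f P) = 0 := by
    rw [hval, ← hP0]
    congr 1
    funext l ρ
    exact hPF l ρ
  have h9 : ∀ l (ρ : (F l).E), (X l ρ * (matrices F t l ρ)⁻¹).det = 1 := by
    intro l ρ
    rw [Matrix.det_mul, Matrix.det_nonsing_inv, hX, Ring.inverse_eq_inv']
    exact mul_inv_cancel₀ (hdet _ _)
  have h10 : ∀ l (ρ : (F l).E), X l ρ * (matrices F t l ρ)⁻¹ * matrices F t l ρ = X l ρ := by
    intro l ρ
    rw [mul_assoc, Matrix.nonsing_inv_mul _ (hdet l ρ).isUnit, mul_one]
  have hcoef : ∀ s, (MvPolynomial.rename f P).coeff s ∈ V := by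
    intro s
    by_cases hs : ∃ u, Finsupp.mapDomain f u = s
    · obtain ⟨u, rfl⟩ := hs
      rw [MvPolynomial.coeff_rename_mapDomain f hfi]
      exact hPV u
    · rw [MvPolynomial.coeff_rename_eq_zero f P s fun u hu => absurd ⟨u, hu⟩ hs]
      exact V.zero_mem
  have key := h (MvPolynomial.rename f P) ((MvPolynomial.totalDegree_rename_le _ _).trans hP) hcoef hv0
    (fun l i => X l ((F l).E.equivFin.symm i) * (matrices F t l ((F l).E.equivFin.symm i))⁻¹)
    (fun l i => h9 l ((F l).E.equivFin.symm i))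
  rw [hval] at key
  rw [← key]
  congr 1
  funext l ρ
  have h11 : X l ρ = X l ((F l).E.equivFin.symm ((F l).E.equivFin ρ)) *
      (matrices F t l ((F l).E.equivFin.symm ((F l).E.equivFin ρ)))⁻¹ * matrices F t l ρ := by
    rw [Equiv.symm_apply_apply, h10]
  refine h11.trans ?_
  exact congrArg (fun Y => X l ((F l).E.equivFin.symm ((F l).E.equivFin ρ)) *
      (matrices F t l ((F l).E.equivFin.symm ((F l).E.equivFin ρ)))⁻¹ * Y) (hPF l ρ).symm

/-- Let `F_1, …, F_q` be families of cyclic covers. There is `G` such that for all `k`, all choices `σ` of one of the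
families for each of `k` points, all degrees `δ` and dimensions `D` there are `M` and `c > 0` such that for every
`ℚ`-subspace `V` of `ℂ` of dimension at most `D` and every `N` all `k`-tuples of integers in `[N, N + N ^ c]` outside a set
`S` of at most `M` integers, with distances at least `G`, are good. -/
theorem result {q : ℕ} (hq : 0 < q) (F : Fin q → Family) :
    ∃ G : ℕ, ∀ (k : ℕ) (σ : Fin k → Fin q) (δ D : ℕ), ∃ M : ℕ, ∃ c : ℝ, 0 < c ∧
      ∀ V : Submodule ℚ ℂ, Module.Finite ℚ V → Module.finrank ℚ V ≤ D → ∀ N : ℕ, 1 ≤ N →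
        ∃ S : Finset ℕ, S.card ≤ M ∧ ∀ t : Fin k → ℕ, (∀ i j, i ≠ j → (G : ℤ) ≤ |(t i : ℤ) - t j|) →
          (∀ j, N ≤ t j ∧ (t j : ℝ) ≤ N + (N : ℝ) ^ c ∧ t j ∉ S) → Good (fun j => F (σ j)) V δ t := by
  obtain ⟨r, hr, hball, G₀, hG₀, hmain⟩ := TT.tup_win (fun l => conv (F l)) ⟨0, hq⟩
  refine ⟨G₀, fun k σ δ D => ?_⟩
  obtain ⟨M, c, hc, hM⟩ := hmain k σ δ D
  refine ⟨M, c, hc, fun V hV hVD N hN => ?_⟩
  obtain ⟨S, hS, hS'⟩ := hM V hV hVD N hN
  refine ⟨S, hS, fun t ht htS => ?_⟩
  obtain ⟨h1, h2⟩ := hS' t ht htS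
  exact good_of (fun j => F (σ j)) V δ (fun l => hball (σ l)) h1 h2

end Pool.Agent.Results.MP_5591bc_ag.AllTuplesOfCyclicCovers
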