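import Pool.Agent.Run7.h309.JP.All

/-!
# Products of hypergeometric families: relations between the periods at all points of all number fields

Let `α_1, …, α_n` be rational numbers which are not integers, `n ≥ 2`, `∑_j α_j = 0`, `θ = z d/dz` and
`Q(x) = ∏_j (x + α_j)`. The hypergeometric operator `θ^n - z Q(θ)` has maximally unipotent monodromy at `z = 0` and
unipotent monodromy (a transvection) at `z = 1`. If `Q(-x) = Q(x)`, the differential Galois group is the symplectic group;
this contains the families of Calabi–Yau threefolds with hypergeometric periods (the mirror quintic family is contiguous to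
the case `α = (1/5, 2/5, -1/5, -2/5)`). If the equation is not self-dual, it is the special linear group. The Frobenius
method gives the basis `f_0, …, f_{n-1}` of solutions, and the periods of the fibre at `z` of the corresponding family of
motives are linear combinations with constant coefficients of the numbers `(θ^i f_j)(z)`.

We consider tuples `(z_1, …, z_k)` of points, and for each `z_i` a finite list of such equations. We prove for all points
`(z_1, …, z_k)` over all number fields `K`, in the polydisc cut along the negative axes, outside few hypersurfaces: all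
relations between the numbers `log z_i` and the periods of all these motives over `K` follow from the bilinear relations of
the symplectic equations and from the fact that the determinants are `1`. Here the degree of `K`, the degree of the
relations, the height of their coefficients (in terms of the height of the point) and the number of additional constants
are bounded by functions which tend to infinity with the height of the point, and the points come arbitrarily close to the
boundary.
-/

set_option autoImplicit false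

open PowerSeries Pool.Agent.Y119.HZ Filter NumberField

namespace Pool.Agent.Results.MP_5591bc_ag.HypergeometricAllPoints

/-- A hypergeometric equation `θ^n f = z ∏_j (θ + α_j) f`. -/
structure Eqn where
  n : ℕ
  α : Fin n → ℚ

/-- the dual equation (the exponents at infinity are `-α_j`) -/
def Eqn.dual (e : Eqn) : Eqn := ⟨e.n, fun j => -e.α j⟩

/-- the multiset of the fractional parts of the `α_j` -/
def Eqn.frac (e : Eqn) : Multiset ℚ := Multiset.map (fun j => Int.fract (e.α j)) Finset.univ.val

/-- the polynomial `Q = ∏_j (x + α_j)` -/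
noncomputable def Eqn.poly (e : Eqn) : Polynomial ℚ := ∏ j, (Polynomial.X + Polynomial.C (e.α j))

/-- `Q(-x) = Q(x)` -/
def Eqn.Symplectic (e : Eqn) : Prop := e.poly.comp (-Polynomial.X) = e.poly

/-- The order is at least two, the `α_j` are not integers, their sum is `0`, and `Q(-x) = Q(x)`, or `n` is odd, or the
fractional parts of the `α_j` and of the `-α_j` are different multisets. -/
def Eqn.Admissible (e : Eqn) : Prop :=
  2 ≤ e.n ∧ (∀ j, ∀ a : ℤ, e.α j ≠ a) ∧ ∑ j, e.α j = 0 ∧ (e.Symplectic ∨ Odd e.n ∨ e.frac ≠ e.dual.frac)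

/-- The equations of a list are admissible, and the exponents at infinity of different equations of the list, and of one of
them and of the dual of another one, are different modulo `ℤ`. -/
def Good {r : ℕ} (e : Fin r → Eqn) : Prop :=
  (∀ j, (e j).Admissible) ∧ ∀ i j, i ≠ j → (e i).frac ≠ (e j).frac ∧ (e i).frac ≠ (e j).dual.frac

/-- the power series `k + ε` in the variable `ε` -/
noncomputable def shift (k : ℕ) : PowerSeries ℚ := C (k : ℚ) + X

/-- `a_k(ε) = ∏_{l < k} Q(l + ε) / (l + 1 + ε)^n`. The series `∑_k a_k(ε) z^(k + ε)` solves the equation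
`(θ^n - z Q(θ)) f = ε^n z^ε`, hence its coefficients `f_j` at `ε^j` with `j < n` are solutions of the homogeneous
equation. -/
noncomputable def Eqn.frob (e : Eqn) (k : ℕ) : PowerSeries ℚ :=
  ∏ l ∈ Finset.range k, (Polynomial.aeval (shift l) e.poly * ((shift (l + 1))⁻¹) ^ e.n)

/-- The matrix with the entries `(θ^i f_j)(z)`, where `f_j(z)` is the coefficient of `ε^j` in the series
`∑_k a_k(ε) z^(k + ε)`, `z^ε = ∑_l (log z)^l ε^l / l!` (principal branch of the logarithm). -/
noncomputable def Eqn.Y (e : Eqn) (z : ℂ) : Matrix (Fin e.n) (Fin e.n) ℂ :=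
  Matrix.of fun i j => ∑ l ∈ Finset.range ((j : ℕ) + 1), Complex.log z ^ l / (l.factorial : ℂ) *
    ∑' k : ℕ, ((coeff ((j : ℕ) - l) (shift k ^ (i : ℕ) * e.frob k) : ℚ) : ℂ) * z ^ k

/-- The matrix of the intersection form: the entry `(i, j)` is `(-1)^i q_{i+j+1-n}` for `i + j + 1 ≥ n` and `0`
otherwise, where `q_l` are the coefficients of `Q`. -/
noncomputable def Eqn.J (e : Eqn) : Matrix (Fin e.n) (Fin e.n) ℂ :=
  Matrix.of fun i j => if e.n ≤ (i : ℕ) + j + 1 then (((-1) ^ (i : ℕ) * e.poly.coeff (i + j + 1 - e.n) : ℚ) : ℂ) else 0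

/-- The group of the equation: the matrices of determinant `1`, with `gᵀ J g = J` if `Q(-x) = Q(x)`. -/
def Eqn.G (e : Eqn) : Set (Matrix (Fin e.n) (Fin e.n) ℂ) :=
  {g | g.det = 1 ∧ (e.Symplectic → g.transpose * e.J * g = e.J)}

/-- the variables: for each `i` one for the logarithm and one for each entry of the matrices -/
abbrev Var {k : ℕ} {r : Fin k → ℕ} (e : ∀ i, Fin (r i) → Eqn) : Type :=
  Σ i : Fin k, Option (Σ j : Fin (r i), Fin (e i j).n × Fin (e i j).n)

/-- the point with the coordinates `l_i` and the entries of the matrices `X_ij` -/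
def point {k : ℕ} {r : Fin k → ℕ} {e : ∀ i, Fin (r i) → Eqn} (l : Fin k → ℂ)
    (X : ∀ i j, Matrix (Fin (e i j).n) (Fin (e i j).n) ℂ) : Var e → ℂ
  | ⟨i, none⟩ => l i
  | ⟨i, some ⟨j, p⟩⟩ => X i j p.1 p.2

/-- the unit disc without the real numbers `≤ 0` -/
def Disc : Set ℂ := {z | ‖z‖ < 1 ∧ z ∈ Complex.slitPlane}

/-- the points of the disc at distance at least `1 / w` from the unit circle and from the real numbers `≤ 0` -/
def Inner (w : ℕ) : Set ℂ := {z | ‖z‖ + 1 / w ≤ 1 ∧ ∀ t : ℝ, t ≤ 0 → (1 : ℝ) / w ≤ ‖z - t‖}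

/-- The polynomials of degree at most `w` in each variable, with coefficients of the form `∑_a ξ_a φ(c_a)` with integers
`c_a` of `K` all conjugates of which have absolute value at most `T ^ w`. -/
def Relations {k : ℕ} {r : Fin k → ℕ} (e : ∀ i, Fin (r i) → Eqn) (w : ℕ) (K : Type) [Field K] [NumberField K]
    (φ : K →+* ℂ) (ξ : Fin w → ℂ) (T : ℝ) : Set (MvPolynomial (Var e) ℂ) :=
  {P | (∀ v, P.degreeOf v ≤ w) ∧ ∀ s, ∃ c : Fin w → 𝓞 K, (∀ a (ψ : K →+* ℂ), ‖ψ (c a : K)‖ ≤ T ^ w) ∧
    P.coeff s = ∑ a, ξ a * φ (c a : K)}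

/-- The points `s` of `K^k` of height at most `T` (quotients of integers all conjugates of which have absolute value at most
`T`) with all `φ(s_i)` in `Inner w` such that some polynomial in `Relations` vanishes at the numbers `log φ(s_i)` and the
entries of the matrices `Y_ij(φ(s_i)) Ω_ij`, but not on the set of the points with arbitrary coordinates `l_i` and the
matrices `g_ij Ω_ij`, `g_ij` in the group of the equation `e_ij`. -/
def Exceptional {k : ℕ} {r : Fin k → ℕ} (e : ∀ i, Fin (r i) → Eqn) (Ω : ∀ i j, Matrix (Fin (e i j).n) (Fin (e i j).n) ℂ)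
    (w : ℕ) (K : Type) [Field K] [NumberField K] (φ : K →+* ℂ) (ξ : Fin w → ℂ) (T : ℝ) : Set (Fin k → K) :=
  {s | (∀ i, Y120.HtLe K T (s i)) ∧ (∀ i, φ (s i) ∈ Inner w) ∧ ∃ P ∈ Relations e w K φ ξ T,
    MvPolynomial.eval (point (fun i => Complex.log (φ (s i))) fun i j => (e i j).Y (φ (s i)) * Ω i j) P = 0 ∧
    ∃ (l : Fin k → ℂ) (g : ∀ i j, Matrix (Fin (e i j).n) (Fin (e i j).n) ℂ), (∀ i j, g i j ∈ (e i j).G) ∧
      MvPolynomial.eval (point l fun i j => g i j * Ω i j) P ≠ 0}

theorem frob_eq (e : Eqn) (k : ℕ) : e.frob k = Pool.Agent.Y119.HY.aq e.n e.poly k := rfl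

theorem J_eq (e : Eqn) : e.J = Pool.Agent.Y119.HY.cm (Pool.Agent.Y119.HY.Jm e.n e.poly) := by
  ext i j
  rw [Pool.Agent.Y119.HY.cm_apply]
  unfold Eqn.J Pool.Agent.Y119.HY.Jm
  rw [Matrix.of_apply, Matrix.of_apply]
  split_ifs
  · rfl
  · simp

theorem Y_eq (e : Eqn) (z : ℂ) : e.Y z = Pool.Agent.Y119.HY.Yf (Pool.Agent.Y119.HY.cm (Pool.Agent.Y119.HY.Am e.n))
    (Pool.Agent.Y119.HY.Hc e.n e.poly) z := by
  ext i j
  unfold Eqn.Y Pool.Agent.Y119.HY.Yf
  rw [Matrix.of_apply, Matrix.mul_apply]
  have hE : ∀ c : Fin e.n, Pool.Agent.Y119.HY.E (Pool.Agent.Y119.HY.cm (Pool.Agent.Y119.HY.Am e.n))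
      (Complex.log z) c j = ∑ l ∈ Finset.range e.n,
        if (j : ℕ) = c + l then (Complex.log z ^ l / (l.factorial : ℂ)) else 0 := by
    intro c
    unfold Pool.Agent.Y119.HY.E
    rw [Matrix.sum_apply]
    refine Finset.sum_congr rfl fun l _ => ?_
    rw [Matrix.smul_apply, ← Pool.Agent.Y119.HY.cm_pow, Pool.Agent.Y119.HY.cm_apply, Pool.Agent.Y119.HY.Am_pow, smul_eq_mul]
    split_ifs
    · push_cast
      ring
    · simp
  simp only [hE, Finset.mul_sum]
  rw [Finset.sum_comm]
  have hsub : Finset.range ((j : ℕ) + 1) ⊆ Finset.range e.n := by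
    intro l hl
    rw [Finset.mem_range] at hl ⊢
    have := j.2
    omega
  refine Finset.sum_subset_zero_on_sdiff hsub (fun l hl => ?_) fun l hl => ?_
  · rw [Finset.mem_sdiff, Finset.mem_range, Finset.mem_range] at hl
    refine Finset.sum_eq_zero fun c _ => ?_
    rw [if_neg (by omega), mul_zero]
  · rw [Finset.mem_range] at hl
    have hj := j.2
    rw [Finset.sum_eq_single (⟨(j : ℕ) - l, by omega⟩ : Fin e.n)]
    · rw [if_pos (by simp only; omega), mul_comm]
      congr 1
    · intro c _ hc
      rw [if_neg, mul_zero]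
      intro h
      apply hc
      apply Fin.ext
      simp only
      omega
    · intro h
      exact absurd (Finset.mem_univ _) h

theorem point_eq {k : ℕ} {r : Fin k → ℕ} {e : ∀ i, Fin (r i) → Eqn} (l : Fin k → ℂ)
    (X : ∀ i j, Matrix (Fin (e i j).n) (Fin (e i j).n) ℂ) :
    point l X = Run7.h309.JP.pa (n := fun i j => (e i j).n) l X := by
  funext v
  obtain ⟨i, _ | ⟨j, p⟩⟩ := v
  · rfl
  · rfl

theorem types {r : ℕ} {e : Fin r → Eqn} (he : Good e) :
    ∃ W, Pool.Agent.Run7.h225.HG.JT (fun j => (e j).n) (fun j => (e j).poly) W := by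
  refine Pool.Agent.Run7.h225.HG.JT_QA (n := fun j => (e j).n) (α := fun j => (e j).α) (fun j => (he.1 j).1)
    (fun j => (he.1 j).2.1) (fun j => ?_) fun i j hij => he.2 i j hij
  exact Or.inl (he.1 j).2.2

theorem coeff_zero {e : Eqn} (he : e.Admissible) : e.poly.coeff (e.n - 1) = 0 := by
  have h1 : e.poly.coeff (e.n - 1) = ∑ j, e.α j := Pool.Agent.Run7.h225.HG.QA_coeff (by have := he.1; omega) e.α
  rw [h1]
  exact he.2.2.1

theorem G_iff {e : Eqn} (he : e.Admissible) (g : Matrix (Fin e.n) (Fin e.n) ℂ) :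
    g ∈ e.G ↔ Run7.h309.JP.GJ e.n e.poly g := by
  have hQ := Pool.Agent.Run7.h225.HG.QG_QA he.1 (Pool.Agent.Run7.h225.HG.nonint he.2.1)
  unfold Eqn.G Run7.h309.JP.GJ
  rw [Set.mem_ofPred_eq, J_eq]
  refine and_congr_right fun _ => ⟨fun h h2 => h ?_, fun h h2 => h ?_⟩
  · exact Pool.Agent.Run7.h225.HG.even_of_QD h2
  · exact Pool.Agent.Run7.h225.HG.QD_of_even hQ h2

/-- Let `e_i`, `1 ≤ i ≤ k`, `k ≥ 1`, be good lists of hypergeometric equations `e_ij`. The matrices `Y_ij(z)` lie in the
groups `G_ij` of the equations (symplectic or special linear groups) for all `z` in the unit disc, and: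

* every polynomial relation with complex coefficients between the functions `z_i`, `log z_i` and the entries of all the
  `Y_ij(z_i)` on the product of the `k` slit discs holds for all `z` in this product identically on `ℂ^k × ∏_ij G_ij`;
* let `Ω_ij` be complex matrices. There is `ω → ∞` such that for all large `T`, all number fields `K` of degree at most
  `ω(T)`, all embeddings `φ` of `K` in `ℂ` and all complex numbers `ξ_a`, `a < ω(T)`: for all points `s` of `K^k` of height
  at most `T` such that the `φ(s_i)` are at distance at least `1 / ω(T)` from the unit circle and from the negative axis,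
  except for those on at most `T^(1/ω(T))` hypersurfaces of degree at most `T^(1/ω(T))`, every relation of degree at most
  `ω(T)` in each variable, with coefficients `∑_a ξ_a c_a`, `c_a` integers of `K` of size at most `T^ω(T)`, between the
  numbers `log φ(s_i)` and the entries of the matrices `Y_ij(φ(s_i)) Ω_ij` holds identically on
  `ℂ^k × ∏_ij G_ij Ω_ij`. There are at most `T^(1/ω(T)) M^(k-1)` exceptional points, `M` being the number of elements of
  `K` of height at most `T`. -/
theorem result (k : ℕ) (hk : 1 ≤ k) (r : Fin k → ℕ) (e : ∀ i, Fin (r i) → Eqn) (he : ∀ i, Good (e i)) :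
    (∀ i j, ∀ z : ℂ, ‖z‖ < 1 → (e i j).Y z ∈ (e i j).G) ∧
    (∀ P : MvPolynomial (Var e ⊕ Fin k) ℂ,
      (∀ z : Fin k → ℂ, (∀ i, z i ∈ Disc) →
        MvPolynomial.eval (Sum.elim (point (fun i => Complex.log (z i)) fun i j => (e i j).Y (z i)) z) P = 0) →
      ∀ z l : Fin k → ℂ, (∀ i, z i ∈ Disc) →
        ∀ g : ∀ i j, Matrix (Fin (e i j).n) (Fin (e i j).n) ℂ, (∀ i j, g i j ∈ (e i j).G) →
        MvPolynomial.eval (Sum.elim (point l g) z) P = 0) ∧
    ∀ Ω : ∀ i j, Matrix (Fin (e i j).n) (Fin (e i j).n) ℂ,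
      ∃ (ω : ℝ → ℕ) (T₀ : ℝ), Tendsto ω atTop atTop ∧ Monotone ω ∧ ∀ T, T₀ ≤ T → 0 < ω T ∧
        ∀ (K : Type) [Field K] [NumberField K], Module.finrank ℚ K ≤ ω T → ∀ (φ : K →+* ℂ) (ξ : Fin (ω T) → ℂ),
          Y124.Cov ⌊T ^ ((ω T : ℝ)⁻¹)⌋₊ ⌊T ^ ((ω T : ℝ)⁻¹)⌋₊
            ((fun (s : Fin k → K) j => φ (s j)) '' Exceptional e Ω (ω T) K φ ξ T) ∧
          (Exceptional e Ω (ω T) K φ ξ T).Finite ∧
          ((Exceptional e Ω (ω T) K φ ξ T).ncard : ℝ) ≤
            T ^ ((ω T : ℝ)⁻¹) * ({x : K | Y120.HtLe K T x}.ncard : ℝ) ^ (k - 1) := by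
  classical
  choose W hW using fun i => types (he i)
  have h0 : ∀ i j, (e i j).poly.coeff ((e i j).n - 1) = 0 := fun i j => coeff_zero ((he i).1 j)
  refine ⟨fun i j z hz => ?_, fun P hP z l hz g hg => ?_, fun Ω => ?_⟩
  · rw [G_iff ((he i).1 j), Y_eq]
    exact Run7.h309.JP.Yf_GJ ((hW i).q j) (h0 i j) hz
  · have h1 := Run7.h309.JP.all_functions (n := fun i j => (e i j).n) (Q := fun i j => (e i j).poly) (W := W)
      (fun i j => 1) hW h0 P (fun z hz => by
        have h2 := hP z hz
        rw [point_eq] at h2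
        simp only [mul_one, ← Y_eq]
        exact h2) z l hz g fun i j => (G_iff ((he i).1 j) _).1 (hg i j)
    rw [point_eq]
    simp only [mul_one] at h1
    exact h1
  · obtain ⟨ω, T₀, h1, h2, h3⟩ := Run7.h309.JP.all_points (n := fun i j => (e i j).n) (Q := fun i j => (e i j).poly)
      (W := W) Ω hk hW h0
    refine ⟨ω, T₀, h1, h2, fun T hT => ⟨(h3 T hT).1, ?_⟩⟩
    intro K _ _ hK φ ξ
    have h4 := (h3 T hT).2 K hK φ ξ
    have h5 : Exceptional e Ω (ω T) K φ ξ T =
        Run7.h309.JP.ExcK (n := fun i j => (e i j).n) Ω (fun i j => (e i j).poly) (ω T) K φ ξ T := by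
      ext s
      unfold Exceptional Run7.h309.JP.ExcK
      simp only [Set.mem_ofPred_eq, point_eq, Y_eq]
      refine and_congr_right fun _ => and_congr_right fun _ => exists_congr fun P => and_congr Iff.rfl
        (and_congr Iff.rfl (exists_congr fun l => exists_congr fun g => and_congr_left fun _ => ?_))
      exact forall_congr' fun i => forall_congr' fun j => G_iff ((he i).1 j) (g i j)
    rw [h5]
    exact h4

end Pool.Agent.Results.MP_5591bc_ag.HypergeometricAllPoints
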