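import Pool.Agent.Run7.h309.ST.Core

/-!
# The torsor form of the period conjecture for products of hypergeometric motives at algebraic points

Let `α_1, …, α_n` be rational numbers which are not integers, `n ≥ 2`, `θ = z d/dz` and `Q(x) = ∏_j (x + α_j)`. We consider
the hypergeometric operators `θ^n - z Q(θ)`, with maximally unipotent monodromy at `z = 0`, the exponents `α_j` at infinity and
a pseudoreflection at `z = 1` of determinant `exp(2πi s)`, `s = ∑_j α_j`. Up to rational gauge transformations the equation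
depends only on the `α_j` modulo `ℤ`; we normalise them such that `s = 0` if `s` is an integer, `Q(-x) = Q(x)` if the equation
is self-dual and `n` is even, and `Q(-1-x) = -Q(x)` if it is self-dual and `n` is odd. The period matrices of the
corresponding families of motives at `z` near `0` are `A(z) Y(z) Ω` with the matrix `Y` of the derivatives of the Frobenius
solutions, `A` over a number field `(z)` and `Ω` constant (the periods of the limit); the matrix `A(z)` can be omitted if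
`z` is algebraic. We take a finite list of such equations, with exponents at infinity which are pairwise different modulo `ℤ`
and different from those of the dual equations (and not both an equation of order `2` with a reflection of order two at `1` and
a self-dual one of order `3`, see Clausen's formula), so the direct sum of the motives `M_ij` of the equations `j` at the
same point `z_i = 1 / ξ_i`, and `k` such points, where the `ξ_i` are algebraic integers. Let `M_0` be any object over a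
number field with period matrix `C₀`, for example the motive of a fixed smooth projective variety.

For a number field `K ⊂ ℂ` a `K`-subtorsor is a subset `T` of `GL` which is defined by polynomials over `K`, of any degree,
and closed under `x y⁻¹ z`. The torsor of motivic isomorphisms of `H_dR` and `H_B` is one and contains the period matrix
`c = C₀ ⊕ ⨁_ij (Y_j(z_i) Ω_ij)ᵗ` of `M_0 ⊕ ⨁ M_ij`, and Grothendieck's conjecture implies that it is contained in all others
with `c ∈ T`, up to connected components, for all `K`. We show that this is the case, relative to `M_0`, for almost all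
tuples `ξ` of algebraic integers of degree `≤ g`, for all number fields `K` of degree `≤ D` at once:

1. `T` is stable under `1 × ∏_ij G_ij`, where `G_ij` is the symplectic group, the special orthogonal group or the special
   linear group of the Betti realisation of `M_ij`: there are no relations between the motives at the same point, and none of
   any degree of the kind considered besides the obvious ones;
2. `T` contains all points `C₀ ⊕ ⨁_ij (X_ij Ω_ij)ᵗ` with `X_ij` in the torsor `T_j(z_i)` given by the bilinear relations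
   and the determinant;
3. if `M_0` is a sum of copies of `ℚ(-1)` (`C₀ = 2πi`) and `T` is contained in the torsor of the isomorphisms which respect
   polarisations and determinants up to the powers of the Tate coordinate, then it is equal to this torsor.

The exceptional set has at most `C M^(-c) N^k` elements if there are `N` algebraic integers with conjugates of size `≤ M`, and
`D` may tend to infinity with `M`. Only the case of the subtorsors is treated, so the theorem says that the Zariski closure of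
the period point is not contained in any smaller subtorsor; its dimension is not determined.

Proof. Outside of the exceptional set all relations of bounded degree of `c` over `ℚ` hold for `g c`, `g ∈ ∏ G_ij`, by the
theorem on tuples of algebraic points for products of hypergeometric families (`Pool/Agent/Run7/h225/HG/JW.lean`, helper225
and others). By helper123's theorem on commutators (`Pool/Agent/Y123/GN/E2.lean`, starting tree) this implies that all
`K`-subtorsors are stable under the commutator group of the group generated by the unipotent one-parameter groups, and the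
groups `Sp`, `SO`, `SL` are perfect and generated by unipotent elements.
-/

set_option autoImplicit false

open PowerSeries Pool.Agent.Y119.HZ Pool.Agent.Run7.h225.HG Filter
open scoped Matrix

namespace Pool.Agent.Results.MP_5591bc_ag.HypergeometricSubtorsors

/-- A hypergeometric equation `θ^n f = z ∏_j (θ + α_j) f`. -/
structure Eqn where
  n : ℕ
  α : Fin n → ℚ

/-- the dual equation (the exponents at infinity are `-α_j`) -/
def Eqn.dual (e : Eqn) : Eqn := ⟨e.n, fun j => -e.α j⟩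

/-- the multiset of the fractional parts of the `α_j` -/
def Eqn.frac (e : Eqn) : Multiset ℚ := Multiset.map (fun j => Int.fract (e.α j)) Finset.univ.val

/-- the polynomial `Q = ∏_j (x + α_j)` -/
noncomputable def Eqn.poly (e : Eqn) : Polynomial ℚ := ∏ j, (Polynomial.X + Polynomial.C (e.α j))

/-- `Q(-x) = Q(x)` -/
def Eqn.Symplectic (e : Eqn) : Prop := e.poly.comp (-Polynomial.X) = e.poly

/-- `Q(-1-x) = -Q(x)` -/
def Eqn.Orthogonal (e : Eqn) : Prop := e.poly.comp (-(Polynomial.X + 1)) = -e.poly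

/-- The order is at least two, the exponents at infinity are not integers, their sum is `0` or not an integer, and either the
fractional parts of the `α_j` and of the `-α_j` are different multisets or `Q(-x) = Q(x)` or `Q(-1-x) = -Q(x)`. -/
def Eqn.Admissible (e : Eqn) : Prop :=
  2 ≤ e.n ∧ (∀ j, ∀ a : ℤ, e.α j ≠ a) ∧ (∑ j, e.α j = 0 ∨ ∀ a : ℤ, ∑ j, e.α j ≠ a) ∧
  (e.frac ≠ e.dual.frac ∨ e.Symplectic ∨ e.Orthogonal)

/-- The equations of a list are admissible, the exponents at infinity of different equations of the list, and of one of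
them and of the dual of another one, are different modulo `ℤ`, and the list does not contain both an equation of order two
such that `s = ∑_j α_j ≠ 0` and `2 s` is an integer and an equation of order three with `Q(-1-x) = -Q(x)`. -/
def Good {r : ℕ} (e : Fin r → Eqn) : Prop :=
  (∀ j, (e j).Admissible) ∧ (∀ i j, i ≠ j → (e i).frac ≠ (e j).frac ∧ (e i).frac ≠ (e j).dual.frac) ∧
  ∀ i j, (e i).n = 2 → (∃ a : ℤ, 2 * ∑ l, (e i).α l = a) → ∑ l, (e i).α l ≠ 0 → (e j).n = 3 → ¬ (e j).Orthogonal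

/-- the power series `k + ε` in the variable `ε` -/
noncomputable def shift (k : ℕ) : PowerSeries ℚ := C (k : ℚ) + X

/-- `a_k(ε) = ∏_{l < k} Q(l + ε) / (l + 1 + ε)^n`. The series `∑_k a_k(ε) z^(k + ε)` solves the equation
`(θ^n - z Q(θ)) f = ε^n z^ε`, hence its coefficients `f_j` at `ε^j` with `j < n` are solutions of the homogeneous
equation. -/
noncomputable def Eqn.frob (e : Eqn) (k : ℕ) : PowerSeries ℚ :=
  ∏ l ∈ Finset.range k, (Polynomial.aeval (shift l) e.poly * ((shift (l + 1))⁻¹) ^ e.n)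

/-- The matrix with the entries `(θ^i f_j)(z)` at `z = 1 / ξ`, where `f_j(z)` is the coefficient of `ε^j` in the series
`∑_k a_k(ε) z^(k + ε)`, `z^ε = ∑_a (log z)^a ε^a / a!`, with the value `-l` of `log z`, where `exp l = ξ`. -/
noncomputable def Eqn.Y (e : Eqn) (ξ l : ℂ) : Matrix (Fin e.n) (Fin e.n) ℂ :=
  Matrix.of fun i j => ∑ a ∈ Finset.range ((j : ℕ) + 1), (-l) ^ a / (a.factorial : ℂ) *
    ∑' k : ℕ, ((coeff ((j : ℕ) - a) (shift k ^ (i : ℕ) * e.frob k) : ℚ) : ℂ) * (1 / ξ) ^ k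

/-- The matrix of the alternating form: the entry `(i, j)` is `(-1)^i q_{i+j+1-n}` for `i + j + 1 ≥ n` and `0`
otherwise, where `q_l` are the coefficients of `Q`. -/
noncomputable def Eqn.J (e : Eqn) : Matrix (Fin e.n) (Fin e.n) ℂ :=
  Matrix.of fun i j => if e.n ≤ (i : ℕ) + j + 1 then (((-1) ^ (i : ℕ) * e.poly.coeff (i + j + 1 - e.n) : ℚ) : ℂ) else 0

/-- the polynomial `(Q(x) + Q(y)) / (x + y + 1)`, a polynomial in `y` with coefficients in `ℚ[x]` -/
noncomputable def lagrange (Q : Polynomial ℚ) : Polynomial (Polynomial ℚ) :=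
  (Polynomial.C Q + Q.map Polynomial.C) /ₘ (Polynomial.X + Polynomial.C (Polynomial.X + 1))

/-- The matrix of the symmetric form on the fibre at `z`: the entry `(i, j)` is the coefficient of `x^i y^j` in
`(x^n + y^n) / (x + y) - z (Q(x) + Q(y)) / (x + y + 1)`. -/
noncomputable def Eqn.B (e : Eqn) (z : ℂ) : Matrix (Fin e.n) (Fin e.n) ℂ :=
  Matrix.of fun i j => (if (i : ℕ) + j + 1 = e.n then (-1) ^ (i : ℕ) else 0) -
    z * ((((lagrange e.poly).coeff j).coeff i : ℚ) : ℂ)

/-- The torsor of the equation at `z`: the matrices `X` with `det X = (1 - z)^(-s)` (principal branch), `s = ∑_j α_j`, and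
`Xᵀ J X = J` if `Q(-x) = Q(x)`, and `Xᵀ B(z) X = B(0)` if `Q(-1-x) = -Q(x)`. -/
def Eqn.T (e : Eqn) (z : ℂ) : Set (Matrix (Fin e.n) (Fin e.n) ℂ) :=
  {X | X.det = Complex.exp (-((∑ j, e.α j : ℚ) : ℂ) * Complex.log (1 - z)) ∧
    (e.Symplectic → X.transpose * e.J * X = e.J) ∧ (e.Orthogonal → X.transpose * e.B z * X = e.B 0)}

open Classical in
/-- the form: `J` if `Q(-x) = Q(x)`, the form `B(0)` if `Q(-1-x) = -Q(x)`, and zero otherwise -/
noncomputable def Eqn.form (e : Eqn) : Matrix (Fin e.n) (Fin e.n) ℂ :=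
  if e.Symplectic then e.J else if e.Orthogonal then e.B 0 else 0

/-- `ξ` is an algebraic integer of degree at most `g` all of whose conjugates have absolute value at most `T` -/
def House (g T : ℕ) (ξ : ℂ) : Prop :=
  IsIntegral ℤ ξ ∧ (minpoly ℚ ξ).natDegree ≤ g ∧ ∀ z : ℂ, Polynomial.aeval z (minpoly ℚ ξ) = 0 → ‖z‖ ≤ T

/-- `T` is (the set of complex points of) a `K`-subtorsor of `GL_B = Iso (M_dR, M_B)`: it is closed under `x y⁻¹ z`, and
it is defined in `GL_B` by polynomials with coefficients in `K`. -/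
def IsSubtorsor (K : Subfield ℂ) {B : Type} [Fintype B] [DecidableEq B] (T : Set (Matrix B B ℂ)) : Prop :=
  (∀ x ∈ T, ∀ y ∈ T, ∀ z ∈ T, x * y⁻¹ * z ∈ T) ∧ ∃ I : Set (MvPolynomial (B × B) K), ∀ x : Matrix B B ℂ, x ∈ T ↔
    IsUnit x ∧ ∀ p ∈ I, MvPolynomial.eval (fun b => x b.1 b.2) (MvPolynomial.map (algebraMap K ℂ) p) = 0

/-- `g` has determinant `1` and respects the form `B` (any form if `B = 0`) -/
def Special {n : ℕ} (B g : Matrix (Fin n) (Fin n) ℂ) : Prop := g.det = 1 ∧ g * B * gᵀ = B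

section
variable {r k r₀ : ℕ}

/-- the order of the equation of the block `q`: there are `k r` blocks, the block `q` belongs to the point with the number
`q.divNat` and to the equation with the number `q.modNat` -/
abbrev size (e : Fin r → Eqn) (k : ℕ) (q : Fin (k * r)) : ℕ := (e q.modNat).n

/-- matrices, one for each block -/
abbrev Blocks (e : Fin r → Eqn) (k : ℕ) : Type := ∀ q : Fin (k * r), Matrix (Fin (size e k q)) (Fin (size e k q)) ℂ

/-- the block matrix `x ⊕ ⨁_q X_q` -/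
noncomputable def total {e : Fin r → Eqn} (x : Matrix (Fin r₀) (Fin r₀) ℂ) (X : Blocks e k) :
    Matrix (Fin r₀ ⊕ Σ q, Fin (size e k q)) (Fin r₀ ⊕ Σ q, Fin (size e k q)) ℂ :=
  Matrix.fromBlocks x 0 0 (Matrix.blockDiagonal' X)

/-- the period matrices `(Y_j(1 / ξ_i) Ω_ij)ᵗ` (rows: Betti, columns: de Rham) -/
noncomputable def periods (e : Fin r → Eqn) (Ω : Fin k → ∀ j, Matrix (Fin (e j).n) (Fin (e j).n) ℂ) (ξ l : Fin k → ℂ) :
    Blocks e k := fun q => ((e q.modNat).Y (ξ q.divNat) (l q.divNat) * Ω q.divNat q.modNat)ᵀ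

/-- the forms `Ω_ijᵗ F_j Ω_ij` in the Betti realisations, where `F_j` is the form of the equation -/
noncomputable def betti (e : Fin r → Eqn) (Ω : Fin k → ∀ j, Matrix (Fin (e j).n) (Fin (e j).n) ℂ) : Blocks e k :=
  fun q => (Ω q.divNat q.modNat)ᵀ * (e q.modNat).form * Ω q.divNat q.modNat

/-- The isomorphisms `z ⊕ … ⊕ z ⊕ ⨁_q X_q` of an `r₀`-fold sum of the object `ℚ(-1)` and of the `M_q` which respect
polarisations `F_q` (de Rham) and `B_q` (Betti) with values in `ℚ(-w_q)`, and the identifications of `det M_q` with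
`ℚ(-m_q)` up to a twist (the latter is automatic if `B_q` is alternating and nondegenerate). -/
def torsorOf {e : Fin r → Eqn} (r₀ : ℕ) (B F : Blocks e k) (w m : Fin (k * r) → ℤ) (δ : Fin (k * r) → ℂ) :
    Set (Matrix (Fin r₀ ⊕ Σ q, Fin (size e k q)) (Fin r₀ ⊕ Σ q, Fin (size e k q)) ℂ) :=
  {y | ∃ z : ℂ, z ≠ 0 ∧ ∃ X : Blocks e k, y = total (z • 1) X ∧
    ∀ q, X q * F q * (X q)ᵀ = z ^ (w q) • B q ∧ ((IsUnit (B q) ∧ (B q)ᵀ = -B q) ∨ (X q).det = δ q * z ^ (m q))}

/-- The conclusion for one tuple: for all branches `l` of the logarithms, all number fields `K` of degree at most `D` and all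
`K`-subtorsors which contain `C₀ ⊕ ⨁_ij (Y_j(1 / ξ_i) Ω_ij)ᵗ`. -/
def Full (D : ℕ) (C₀ : Matrix (Fin r₀) (Fin r₀) ℂ) (e : Fin r → Eqn)
    (Ω : Fin k → ∀ j, Matrix (Fin (e j).n) (Fin (e j).n) ℂ) (ξ : Fin k → ℂ) : Prop :=
  ∀ l : Fin k → ℂ, (∀ i, Complex.exp (l i) = ξ i) →
  ∀ K : Subfield ℂ, FiniteDimensional ℚ K → Module.finrank ℚ K ≤ D →
  ∀ T : Set (Matrix (Fin r₀ ⊕ Σ q, Fin (size e k q)) (Fin r₀ ⊕ Σ q, Fin (size e k q)) ℂ),
    IsSubtorsor K T → total C₀ (periods e Ω ξ l) ∈ T →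
  -- 1: stability under the symplectic, special orthogonal and special linear groups
  (∀ g : Blocks e k, (∀ q, Special (betti e Ω q) (g q)) → ∀ x ∈ T, total 1 g * x ∈ T) ∧
  -- 2: all the points of the torsors of the fibre
  (∀ X : Blocks e k, (∀ q, X q ∈ (e q.modNat).T (1 / ξ q.divNat)) →
    total C₀ (fun q => (X q * Ω q.divNat q.modNat)ᵀ : Blocks e k) ∈ T) ∧
  -- 3: the absolute case
  (0 < r₀ → C₀ = (2 * Real.pi * Complex.I : ℂ) • 1 →
    ∀ (B F : Blocks e k) (w m : Fin (k * r) → ℤ) (δ : Fin (k * r) → ℂ),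
      (∀ q, ∃ μ : ℂ, μ ≠ 0 ∧ μ • B q = betti e Ω q) → T ⊆ torsorOf r₀ B F w m δ → T = torsorOf r₀ B F w m δ)

end

theorem frob_eq (e : Eqn) (k : ℕ) : e.frob k = Pool.Agent.Y119.HY.aq e.n e.poly k := rfl

theorem J_eq (e : Eqn) : e.J = Pool.Agent.Y119.HY.cm (Pool.Agent.Y119.HY.Jm e.n e.poly) := by
  ext i j
  rw [Pool.Agent.Y119.HY.cm_apply]
  unfold Eqn.J Pool.Agent.Y119.HY.Jm
  rw [Matrix.of_apply, Matrix.of_apply]
  split_ifs
  · rfl
  · simp

theorem B_eq (e : Eqn) (z : ℂ) : e.B z = Run7.h893.HO.Bz (Pool.Agent.Y119.HY.cm (Run7.h893.HO.J0m e.n))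
    (Pool.Agent.Y119.HY.cm (Run7.h893.HO.J1m e.n e.poly)) z := by
  ext i j
  unfold Eqn.B Run7.h893.HO.Bz
  rw [Matrix.of_apply, Matrix.sub_apply, Matrix.smul_apply, Pool.Agent.Y119.HY.cm_apply, Pool.Agent.Y119.HY.cm_apply,
    smul_eq_mul]
  congr 1
  unfold Run7.h893.HO.J0m
  rw [Matrix.of_apply]
  split_ifs
  · push_cast
    rfl
  · rw [Rat.cast_zero]

theorem Y_eq (e : Eqn) (ξ l : ℂ) : e.Y ξ l = Pool.Agent.Y119.HY.Hf (Pool.Agent.Y119.HY.Hc e.n e.poly) (1 / ξ) *
    Pool.Agent.Y119.HY.E (Pool.Agent.Y119.HY.cm (Pool.Agent.Y119.HY.Am e.n)) (-l) := by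
  ext i j
  unfold Eqn.Y
  rw [Matrix.of_apply, Matrix.mul_apply]
  have hE : ∀ c : Fin e.n, Pool.Agent.Y119.HY.E (Pool.Agent.Y119.HY.cm (Pool.Agent.Y119.HY.Am e.n))
      (-l) c j = ∑ a ∈ Finset.range e.n, if (j : ℕ) = c + a then (-l) ^ a / (a.factorial : ℂ) else 0 := by
    intro c
    unfold Pool.Agent.Y119.HY.E
    rw [Matrix.sum_apply]
    refine Finset.sum_congr rfl fun a _ => ?_
    rw [Matrix.smul_apply, ← Pool.Agent.Y119.HY.cm_pow, Pool.Agent.Y119.HY.cm_apply, Pool.Agent.Y119.HY.Am_pow, smul_eq_mul]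
    split_ifs
    · push_cast
      ring
    · simp
  simp only [hE, Finset.mul_sum]
  rw [Finset.sum_comm]
  have hsub : Finset.range ((j : ℕ) + 1) ⊆ Finset.range e.n := by
    intro a ha
    rw [Finset.mem_range] at ha ⊢
    have := j.2
    omega
  refine Finset.sum_subset_zero_on_sdiff hsub (fun a ha => ?_) fun a ha => ?_
  · rw [Finset.mem_sdiff, Finset.mem_range, Finset.mem_range] at ha
    refine Finset.sum_eq_zero fun c _ => ?_
    rw [if_neg (by omega), mul_zero]
  · rw [Finset.mem_range] at ha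
    have hj := j.2
    rw [Finset.sum_eq_single (⟨(j : ℕ) - a, by omega⟩ : Fin e.n)]
    · rw [if_pos (by simp only; omega), mul_comm]
      congr 1
    · intro c _ hc
      rw [if_neg, mul_zero]
      intro h
      apply hc
      apply Fin.ext
      simp only
      omega
    · intro h
      exact absurd (Finset.mem_univ _) h

theorem types {r : ℕ} {e : Fin r → Eqn} (he : Good e) : ∃ W, JU (fun j => (e j).n) (fun j => (e j).poly) W :=
  JU_QA (n := fun j => (e j).n) (α := fun j => (e j).α) (fun j => (he.1 j).1) (fun j => (he.1 j).2.1)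
    (fun j => (he.1 j).2.2.1) (fun j => (he.1 j).2.2.2) (fun i j hij => he.2.1 i j hij) he.2.2

theorem T_eq {e : Eqn} (he : e.Admissible) (z : ℂ) : e.T z = TU e.n e.poly (Complex.log (1 - z)) z := by
  have h1 : e.poly.coeff (e.n - 1) = ∑ j, e.α j := QA_coeff (by have := he.1; omega) e.α
  have hQ := QG_QA he.1 (nonint he.2.1)
  have hB : e.B 0 = Pool.Agent.Y119.HY.cm (Run7.h893.HO.J0m e.n) := by
    rw [B_eq]
    unfold Run7.h893.HO.Bz
    rw [zero_smul, sub_zero]
  ext X
  unfold Eqn.T TU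
  rw [h1, J_eq, hB, B_eq]
  refine and_congr_right fun _ => and_congr ⟨fun h h2 => h ?_, fun h h2 => h ?_⟩ ⟨fun h h2 => h h2.sym, fun h h2 => h ?_⟩
  · exact even_of_QD h2
  · exact QD_of_even hQ h2
  · exact QO_of_comp he.1 (nonint he.2.1) h2

theorem form_eq {e : Eqn} (he : e.Admissible) : e.form = Run7.h309.ST.fm e.n e.poly := by
  have hQ := QG_QA he.1 (nonint he.2.1)
  have hB : e.B 0 = Pool.Agent.Y119.HY.cm (Run7.h893.HO.J0m e.n) := by
    rw [B_eq]
    unfold Run7.h893.HO.Bz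
    rw [zero_smul, sub_zero]
  unfold Eqn.form
  by_cases h1 : e.Symplectic
  · have hD : Pool.Agent.Y119.HY.QD e.n e.poly := QD_of_even hQ h1
    rw [if_pos h1, Run7.h309.ST.fm_D hD, J_eq]
  · rw [if_neg h1]
    have h1' : ¬ Pool.Agent.Y119.HY.QD e.n e.poly := fun h => h1 (even_of_QD h)
    by_cases h2 : e.Orthogonal
    · have hO : Run7.h893.HO.QO e.n e.poly := QO_of_comp he.1 (nonint he.2.1) h2
      rw [if_pos h2, Run7.h309.ST.fm_O hO, hB]
    · rw [if_neg h2]
      have h2' : ¬ Run7.h893.HO.QO e.n e.poly := fun h => h2 h.sym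
      unfold Run7.h309.ST.fm
      rw [if_neg h1', if_neg h2']

theorem subtorsor_iff {K : Subfield ℂ} {B : Type} [Fintype B] [DecidableEq B] {T : Set (Matrix B B ℂ)} :
    IsSubtorsor K T ↔ Pool.Agent.TH127.PT.IsSubtorsor K T := Pool.Agent.Y123.ST.subT_iff

theorem mem_T {e : Eqn} (he : e.Admissible) {ξ l : ℂ} (hξ : 1 < ‖ξ‖) : e.Y ξ l ∈ e.T (1 / ξ) := by
  rw [T_eq he, Y_eq]
  refine mem_TU (QG_QA he.1 (nonint he.2.1)) ?_ _
  rw [norm_div, norm_one, div_lt_one (by linarith)]
  exact hξ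

variable {r k r₀ : ℕ}

/-- the torsors as sets of matrices with given forms -/
theorem T_form {e : Eqn} {z : ℂ} {X : Matrix (Fin e.n) (Fin e.n) ℂ} (hX : X ∈ e.T z) :
    ∃ F : Matrix (Fin e.n) (Fin e.n) ℂ, ∀ Y ∈ e.T z, Yᵀ * F * Y = e.form ∧ Y.det = X.det := by
  unfold Eqn.form
  by_cases h1 : e.Symplectic
  · refine ⟨e.J, fun Y hY => ⟨?_, hY.1.trans hX.1.symm⟩⟩
    rw [if_pos h1]
    exact hY.2.1 h1
  · rw [if_neg h1]
    by_cases h2 : e.Orthogonal
    · refine ⟨e.B z, fun Y hY => ⟨?_, hY.1.trans hX.1.symm⟩⟩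
      rw [if_pos h2]
      exact hY.2.2 h2
    · refine ⟨0, fun Y hY => ⟨?_, hY.1.trans hX.1.symm⟩⟩
      rw [if_neg h2, Matrix.mul_zero, Matrix.zero_mul]

theorem full_of {D : ℕ} {C₀ : Matrix (Fin r₀) (Fin r₀) ℂ} {e : Fin r → Eqn} (he : ∀ j, (e j).Admissible)
    {Ω : Fin k → ∀ j, Matrix (Fin (e j).n) (Fin (e j).n) ℂ} {ξ : Fin k → ℂ} (hξ : ∀ i, 1 < ‖ξ i‖)
    (h : Run7.h309.ST.GoodS (n := fun j => (e j).n) D C₀ (fun j => (e j).poly) Ω ξ) : Full D C₀ e Ω ξ := by
  intro l hl K hKf hKD T hT hcT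
  have hKalg : ∀ x ∈ K, IsAlgebraic ℚ x := by
    intro x hx
    have : NumberField K := { to_charZero := inferInstance, to_finiteDimensional := hKf }
    have h6 : IsAlgebraic ℚ (⟨x, hx⟩ : K) := Algebra.IsAlgebraic.isAlgebraic _
    exact h6.algebraMap (A := ℂ)
  have hT' := subtorsor_iff.1 hT
  have hper : periods e Ω ξ l = Run7.h309.ST.Pm (n := fun j => (e j).n) (fun j => (e j).poly) Ω ξ l := by
    funext q
    unfold periods Run7.h309.ST.Pm
    rw [Y_eq]
  have hbet : ∀ q : Fin (k * r), betti e Ω q =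
      Run7.h309.ST.bf (n := fun j => (e j).n) (fun j => (e j).poly) Ω q := by
    intro q
    unfold betti Run7.h309.ST.bf
    rw [form_eq (he _)]
  have hcT' := hcT
  rw [hper] at hcT'
  obtain ⟨hu, h1⟩ := h l hl K hKf hKD T hT' hcT'
  have hst : ∀ (B : Blocks e k), (∀ q, ∃ μ : ℂ, μ ≠ 0 ∧ μ • B q = betti e Ω q) →
      ∀ g : ∀ q : Fin (k * r), (Matrix (Fin (size e k q)) (Fin (size e k q)) ℂ)ˣ,
      (∀ q, g q ∈ Pool.Agent.Y123.GN.GB (B q)) → ∀ x ∈ T,
      Pool.Agent.Y123.GN.EG 1 (fun q => (g q : Matrix (Fin (size e k q)) (Fin (size e k q)) ℂ)) * x ∈ T := by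
    intro B hB g hg x hx
    refine h1 g (fun q => ⟨(hg q).1, ?_⟩) x hx
    obtain ⟨μ, -, h2⟩ := hB q
    rw [← hbet q, ← h2, Matrix.mul_smul, Matrix.smul_mul, (hg q).2]
  have hst1 : ∀ g : ∀ q : Fin (k * r), (Matrix (Fin (size e k q)) (Fin (size e k q)) ℂ)ˣ,
      (∀ q, g q ∈ Pool.Agent.Y123.GN.GB (betti e Ω q)) → ∀ x ∈ T,
      Pool.Agent.Y123.GN.EG 1 (fun q => (g q : Matrix (Fin (size e k q)) (Fin (size e k q)) ℂ)) * x ∈ T :=
    hst (betti e Ω) fun q => ⟨1, one_ne_zero, one_smul _ _⟩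
  refine ⟨fun g hg x hx => ?_, fun X hX => ?_, fun hr hC₀ B F w m δ hB hTF => ?_⟩
  · have hgu : ∀ q, IsUnit (g q) := fun q => by
      rw [Matrix.isUnit_iff_isUnit_det, (hg q).1]
      exact isUnit_one
    exact hst1 (fun q => (hgu q).unit) (fun q => hg q) x hx
  · have hY : ∀ q : Fin (k * r), (e q.modNat).Y (ξ q.divNat) (l q.divNat) ∈ (e q.modNat).T (1 / ξ q.divNat) := fun q =>
      mem_T (he _) (hξ _)
    choose F hF using fun q => T_form (hY q)
    have key : ∀ (q : Fin (k * r)) (Y : Matrix (Fin (e q.modNat).n) (Fin (e q.modNat).n) ℂ),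
        Y ∈ (e q.modNat).T (1 / ξ q.divNat) →
        (Y * Ω q.divNat q.modNat)ᵀ * F q * ((Y * Ω q.divNat q.modNat)ᵀ)ᵀ = (1 : ℂ) • betti e Ω q := by
      intro q Y hYm
      rw [one_smul, Matrix.transpose_transpose, Matrix.transpose_mul]
      unfold betti
      rw [← (hF q Y hYm).1]
      simp only [Matrix.mul_assoc]
    refine Pool.Agent.Y123.GN.fibre_full hT' hst1 (μ := fun _ => 1) (Q := F) (fun _ => one_ne_zero) hcT
      (fun q => key q _ (hY q)) (fun q => key q _ (hX q)) fun q => Or.inr ?_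
    show ((e q.modNat).Y (ξ q.divNat) (l q.divNat) * Ω q.divNat q.modNat)ᵀ.det = (X q * Ω q.divNat q.modNat)ᵀ.det
    rw [Matrix.det_transpose, Matrix.det_transpose, Matrix.det_mul, Matrix.det_mul, (hF q _ (hX q)).2]
  · have hne : Nonempty (Fin r₀) := ⟨⟨0, hr⟩⟩
    rw [hC₀] at hcT
    exact Pool.Agent.Y123.GN.absolute hKalg hT' hcT (hst B hB) hTF

/-- Let `e_1, …, e_r` be a good list of hypergeometric equations. Then the matrices `Y_j(1 / ξ)` lie in the torsors
`T_j(1 / ξ)` for `|ξ| > 1`, for all branches, and for all `k`, `r₀`, `g` the following holds.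

* For all `D` there are `c > 0` and `C` such that for all matrices `C₀` and `Ω_ij` at most `C M^(-c) N^k` of the `k`-tuples of
  algebraic integers `ξ_i` with `|ξ_i| > 1` of degree `≤ g` with conjugates of size `≤ M` do not satisfy `Full D`, where
  `N` is the number of all algebraic integers of degree `≤ g` with conjugates of size `≤ M`.
* There are `D(M) → ∞` and `δ(M) → 0` such that for all but `δ(M) N^k` tuples all this is true with `D = D(M)`. -/
theorem result {r : ℕ} (e : Fin r → Eqn) (he : Good e) :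
    (∀ ξ l : ℂ, 1 < ‖ξ‖ → Complex.exp l = ξ → ∀ j, (e j).Y ξ l ∈ (e j).T (1 / ξ)) ∧
    ∀ k r₀ g : ℕ, 1 ≤ g →
      (∀ D : ℕ, ∃ c C : ℝ, 0 < c ∧ ∀ (C₀ : Matrix (Fin r₀) (Fin r₀) ℂ)
        (Ω : Fin k → ∀ j, Matrix (Fin (e j).n) (Fin (e j).n) ℂ) (M : ℕ), 1 ≤ M →
        {ξ : Fin k → ℂ | (∀ i, House g M (ξ i) ∧ 1 < ‖ξ i‖) ∧ ¬ Full D C₀ e Ω ξ}.Finite ∧
        (({ξ : Fin k → ℂ | (∀ i, House g M (ξ i) ∧ 1 < ‖ξ i‖) ∧ ¬ Full D C₀ e Ω ξ}.ncard : ℕ) : ℝ) ≤
          C * (M : ℝ) ^ (-c) * (({ξ : ℂ | House g M ξ}.ncard : ℕ) : ℝ) ^ k) ∧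
      ∃ (D : ℕ → ℕ) (δ : ℕ → ℝ), Tendsto D atTop atTop ∧ Tendsto δ atTop (nhds 0) ∧
        ∀ (C₀ : Matrix (Fin r₀) (Fin r₀) ℂ) (Ω : Fin k → ∀ j, Matrix (Fin (e j).n) (Fin (e j).n) ℂ) (M : ℕ), 1 ≤ M →
        {ξ : Fin k → ℂ | (∀ i, House g M (ξ i) ∧ 1 < ‖ξ i‖) ∧ ¬ Full (D M) C₀ e Ω ξ}.Finite ∧
        (({ξ : Fin k → ℂ | (∀ i, House g M (ξ i) ∧ 1 < ‖ξ i‖) ∧ ¬ Full (D M) C₀ e Ω ξ}.ncard : ℕ) : ℝ) ≤
          δ M * (({ξ : ℂ | House g M ξ}.ncard : ℕ) : ℝ) ^ k := by
  classical
  obtain ⟨W, hJ⟩ := types he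
  refine ⟨fun ξ l hξ _ j => mem_T (he.1 j) hξ, fun k r₀ g hg => ?_⟩
  have hmain : ∀ D : ℕ, ∃ c C : ℝ, 0 < c ∧ ∀ (C₀ : Matrix (Fin r₀) (Fin r₀) ℂ)
        (Ω : Fin k → ∀ j, Matrix (Fin (e j).n) (Fin (e j).n) ℂ) (M : ℕ), 1 ≤ M →
        {ξ : Fin k → ℂ | (∀ i, House g M (ξ i) ∧ 1 < ‖ξ i‖) ∧ ¬ Full D C₀ e Ω ξ}.Finite ∧
        (({ξ : Fin k → ℂ | (∀ i, House g M (ξ i) ∧ 1 < ‖ξ i‖) ∧ ¬ Full D C₀ e Ω ξ}.ncard : ℕ) : ℝ) ≤
          C * (M : ℝ) ^ (-c) * (({ξ : ℂ | House g M ξ}.ncard : ℕ) : ℝ) ^ k := by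
    intro D
    obtain ⟨c, hc, C, hC, h⟩ := Run7.h309.ST.sub_main hJ r₀ k g D hg
    refine ⟨c, C, hc, fun C₀ Ω M hM => ?_⟩
    obtain ⟨h1, h2⟩ := h C₀ Ω M hM
    have hsub : {ξ : Fin k → ℂ | (∀ i, House g M (ξ i) ∧ 1 < ‖ξ i‖) ∧ ¬ Full D C₀ e Ω ξ} ⊆
        {α : Fin k → ℂ | (∀ i, Pool.Agent.Y916.Sl.SInt g M (α i) ∧ 1 < ‖α i‖) ∧
          ¬ Run7.h309.ST.GoodS (n := fun j => (e j).n) D C₀ (fun j => (e j).poly) Ω α} := by
      rintro ξ ⟨hξ, hnot⟩
      exact ⟨fun i => hξ i, fun hgood => hnot (full_of he.1 (fun i => (hξ i).2) hgood)⟩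
    refine ⟨h1.subset hsub, le_trans ?_ h2⟩
    exact_mod_cast Set.ncard_le_ncard hsub h1
  refine ⟨hmain, ?_⟩
  choose c C hc hcount using hmain
  obtain ⟨D, hD, hδ⟩ := Pool.Agent.Y123.GN.diag_seq (fun D M => C D * (M : ℝ) ^ (-(c D))) (by
    intro D
    have h3 := (tendsto_rpow_neg_atTop (hc D)).comp (tendsto_natCast_atTop_atTop (R := ℝ))
    have h4 := h3.const_mul (C D)
    rw [mul_zero] at h4
    exact h4)
  exact ⟨D, _, hD, hδ, fun C₀ Ω M hM => hcount (D M) C₀ Ω M hM⟩

end Pool.Agent.Results.MP_5591bc_ag.HypergeometricSubtorsors
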