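import Pool.Agent.Run7.h430.TO.All
import Pool.Agent.Results.MP_5591bc_ag.CyclicCoverProducts

/-!
# Periods of products of cyclic covers over the points near tuples of orbits of Euler's function

Let `C⁽ˡ⁾_z : y ^ n_l = (x - z) ^ e₀ ∏_j (x - a_j) ^ (e_j)`, `l = 1, …, p`, be families of cyclic covers of the line with algebraic
branch points (different or equal), as in the starting theorem `CyclicCoverProducts` of this problem. The starting theorem
concerns the fibres over almost all points `(1 / t_1, …, 1 / t_p)`, with arbitrary integers `t_l`.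

Let `φ_j` be the `j`-th iterate of Euler's function, `φ_0(m) = m`, and let `F_1, …, F_p` be positive multiplicative functions of
the order `m ^ (1 + o(1))` such that `F_l q ≤ M q` for the large primes `q`, with different values at different large primes; for
example the identity, Euler's function or the sum of the divisors.

We prove: for every number field `K` and every degree `δ` there is `c > 0` such that for all `κ ≥ 0` with `p κ < c` there is
`J(N)` tending to infinity such that for all but `o(N ^ p)` of the tuples `(m_1, …, m_p) ∈ [1, N] ^ p`, for ALL tuples `t` of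
integers `t_l ≥ 2` with `|t_l - a_l F_l(φ_{j_l}(m_l))| ≤ N ^ κ` for some iterates `j_l ≤ J(N)` and some multiples
`1 ≤ a_l ≤ J(N)`: every relation of degree at most `δ` over `K` between the periods of all the curves `C⁽ˡ⁾_{1 / t_l}` is the value at
`(1 / t_1, …, 1 / t_p)` of a relation over `K[z_1, …, z_p]`, of degree at most `δ`, which holds identically on the graph of the
period map.

The iterates of Euler's function are not multiplicative, and the tuples of their values form a thin set and are taken with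
very large multiplicities; so this does not follow from the number of the exceptional fibres (`CyclicCoverProducts`), which is
used here. The tool is `Pool.Agent.N760.IT` (starting files, one orbit), transferred to tuples of orbits, with multiples and
windows, in `Run7/h430/TO`.
-/

set_option autoImplicit false

namespace Pool.Agent.Results.MP_5591bc_ag.TotientOrbits

open Filter Topology
open Pool.Agent.Results.MP_5591bc_ag.CyclicCoverProducts (Family periods DegreeStatement exceptions)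

/-- A positive multiplicative function of at most polynomial growth, at most `M p` at the large primes `p` and with different
values at different large primes, and equal to `m ^ (1 + o(1))` for all `m`. -/
structure Moderate (f : ℕ → ℕ) : Prop where
  mul : ∀ m n : ℕ, Nat.Coprime m n → f (m * n) = f m * f n
  pos : ∀ m : ℕ, 1 ≤ m → 1 ≤ f m
  growth : ∃ C D : ℕ, ∀ m : ℕ, 1 ≤ m → f m ≤ C * m ^ D
  prime : ∃ P M : ℕ, ∀ p : ℕ, P ≤ p → p.Prime → f p ≤ M * p ∧ ∀ q : ℕ, P ≤ q → q.Prime → f q = f p → q = p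
  order : ∀ ε : ℝ, 0 < ε → ∃ C : ℝ, 1 ≤ C ∧ ∀ m : ℕ, 1 ≤ m → (m : ℝ) ^ (1 - ε) ≤ C * f m ∧ (f m : ℝ) ≤ C * (m : ℝ) ^ (1 + ε)

/-- the value of `f` at the `j`-th iterate of Euler's function -/
def orb (f : ℕ → ℕ) (j m : ℕ) : ℕ := f (Nat.totient^[j] m)

/-- the tuple `t` of positive integers is within `w` of a tuple of multiples `a i F i (φ_{j i} (m i))`, `j i, a i ≤ J` -/
def Near {k : ℕ} (F : Fin k → ℕ → ℕ) (J : ℕ) (w : ℝ) (m t : Fin k → ℕ) : Prop :=
  ∃ j a : Fin k → ℕ, (∀ i, j i ≤ J) ∧ (∀ i, 1 ≤ a i ∧ a i ≤ J) ∧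
    ∀ i, 1 ≤ t i ∧ |(t i : ℝ) - a i * orb (F i) (j i) (m i)| ≤ w

theorem lm_of {f : ℕ → ℕ} (hf : Moderate f) : Pool.Agent.N733.TG.LM f := ⟨hf.mul, hf.pos, hf.growth, hf.prime⟩

theorem of_lm {f : ℕ → ℕ} (hf : Pool.Agent.N733.TG.LM f) (hl : Run7.h430.TO.Lin f) : Moderate f :=
  ⟨hf.mul, hf.pos, hf.growth, hf.prime, hl⟩

theorem moderate_examples : Moderate (fun m => m) ∧ Moderate Nat.totient ∧ Moderate (fun m => ∑ d ∈ m.divisors, d) :=
  ⟨of_lm Pool.Agent.N760.IT.lm_id Run7.h430.TO.lin_id, of_lm Pool.Agent.N733.TG.lm_totient Run7.h430.TO.lin_totient,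
    of_lm Pool.Agent.N733.TG.lm_sigma Run7.h430.TO.lin_sigma⟩

/-- **Periods over the points near tuples of orbits of Euler's function.** Let `Γ_1, …, Γ_p`, `p ≥ 1`, be families of cyclic
covers, `K` a number field and `δ` a degree. There are a polydisc of radius `r > 0` and `c > 0` such that for all `Moderate`
functions `F_1, …, F_p` and all `κ ≥ 0` with `p κ < c` there is `J(N)` tending to infinity such that for all but `o(N ^ p)` of the
tuples `m ∈ [1, N] ^ p`, for ALL `t` near the orbits of `m` (iterates and multiples up to `J(N)`, windows `N ^ κ`) with all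
`t_l ≥ 2`, the point `s = (1 / t_1, …, 1 / t_p)` is in the polydisc and the degree `δ` statement over `K` is true at `s` for the
periods of the product of the fibres of the families over the coordinates of `s`. -/
theorem result :
    (∀ (p : ℕ), 1 ≤ p → ∀ (Γ : Fin p → Family) (K : Type) [Field K] [NumberField K] [Algebra K ℂ] (δ : ℕ),
      ∃ r : ℝ, 0 < r ∧ (∀ l, r ≤ (Γ l).ρ) ∧ ∃ c : ℝ, 0 < c ∧
        ∀ F : Fin p → ℕ → ℕ, (∀ l, Moderate (F l)) → ∀ κ : ℝ, 0 ≤ κ → p * κ < c →
          ∃ J : ℕ → ℕ, Tendsto J atTop atTop ∧ ∀ ε : ℝ, 0 < ε → ∃ N₀ : ℕ, ∀ N : ℕ, N₀ ≤ N →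
            ({m : Fin p → ℕ | (∀ l, 1 ≤ m l ∧ m l ≤ N) ∧
              ¬ ∀ t : Fin p → ℕ, Near F (J N) ((N : ℝ) ^ κ) m t → (∀ l, 2 ≤ t l) →
                ((∀ l, 1 / (t l : ℝ) < r) ∧
                  DegreeStatement K (periods Γ) r δ fun l => 1 / (t l : K))}.ncard : ℝ) ≤ ε * (N : ℝ) ^ p) ∧
    (Moderate (fun m => m) ∧ Moderate Nat.totient ∧ Moderate (fun m => ∑ d ∈ m.divisors, d)) := by
  refine ⟨fun p hp Γ K _ _ _ δ => ?_, moderate_examples⟩
  obtain ⟨r, hr, hrρ, c, C, hc, hC⟩ := CyclicCoverProducts.result Γ K δ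
  obtain ⟨c', hc'⟩ : ∃ c' : ℝ, c' = min c 1 := ⟨_, rfl⟩
  have hc'0 : 0 < c' := by rw [hc']; exact lt_min hc one_pos
  have hc'1 : c' ≤ 1 := by rw [hc']; exact min_le_right _ _
  have hc'c : c' ≤ c := by rw [hc']; exact min_le_left _ _
  refine ⟨r, hr, hrρ, c', hc'0, fun F hF κ hκ hκc => ?_⟩
  have hp1 : (1 : ℝ) ≤ p := by exact_mod_cast hp
  have hκ1 : κ ≤ 1 := by nlinarith
  obtain ⟨J, hJ, h⟩ := Run7.h430.TO.win_all (fun i => lm_of (hF i)) (fun i => (hF i).order) (c := c')
    (hc'1.trans hp1) hκ hκ1 hκc |C|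
  refine ⟨J, hJ, fun ε hε => ?_⟩
  obtain ⟨N₀, hN₀⟩ := h ε hε
  refine ⟨N₀, fun N hN => ?_⟩
  have h1 := hN₀ N hN {t : Fin p → ℕ | (∀ l, 2 ≤ t l) ∧ ¬ ((∀ l, 1 / (t l : ℝ) < r) ∧
    DegreeStatement K (periods Γ) r δ fun l => 1 / (t l : K))} (fun X hX => by
      have hX1 : (1 : ℝ) ≤ X := by exact_mod_cast hX
      have hfin : (exceptions K Γ r δ X).Finite := by
        apply (Fintype.piFinset fun _ : Fin p => Finset.Icc 0 X).finite_toSet.subset
        intro m hm
        rw [Finset.mem_coe, Fintype.mem_piFinset]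
        exact fun i => Finset.mem_Icc.2 ⟨Nat.zero_le _, (hm.1 i).2⟩
      have h2 : ({t : Fin p → ℕ | (∀ i, 1 ≤ t i ∧ t i ≤ X) ∧ t ∈ {t : Fin p → ℕ | (∀ l, 2 ≤ t l) ∧
          ¬ ((∀ l, 1 / (t l : ℝ) < r) ∧ DegreeStatement K (periods Γ) r δ fun l => 1 / (t l : K))}}.ncard : ℝ) ≤
          (exceptions K Γ r δ X).ncard := by
        refine Nat.cast_le.2 (Set.ncard_le_ncard ?_ hfin)
        rintro t ⟨h3, h4, h5⟩
        exact ⟨fun l => ⟨h4 l, (h3 l).2⟩, h5⟩
      refine h2.trans ((hC X hX).trans ?_)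
      calc C * (X : ℝ) ^ ((p : ℝ) - c) ≤ |C| * (X : ℝ) ^ ((p : ℝ) - c) :=
            mul_le_mul_of_nonneg_right (le_abs_self C) (by positivity)
        _ ≤ |C| * (X : ℝ) ^ ((p : ℝ) - c') :=
            mul_le_mul_of_nonneg_left (Real.rpow_le_rpow_of_exponent_le hX1 (by linarith)) (abs_nonneg C))
  refine le_trans (le_of_eq ?_) h1
  congr 2
  ext m
  constructor
  · rintro ⟨hm, h3⟩
    obtain ⟨t, h4⟩ := not_forall.1 h3
    obtain ⟨h5, h6⟩ := Classical.not_imp.1 h4
    obtain ⟨h7, h8⟩ := Classical.not_imp.1 h6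
    exact ⟨hm, t, ⟨h7, h8⟩, h5⟩
  · rintro ⟨hm, t, ⟨h7, h8⟩, h5⟩
    exact ⟨hm, fun h6 => h8 (h6 t h5 h7)⟩

end Pool.Agent.Results.MP_5591bc_ag.TotientOrbits
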